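import Mathlib
import Pool.Agent.H805K.TorMain

/-!
# A locally dominated measure on a complex torus without bounded potential

On a three-dimensional complex torus `X = ℂ³ / Λ` with a flat Kaehler form `ω` there is a probability
measure `μ` which is locally dominated by Monge-Ampere measures of bounded plurisubharmonic
functions, but which is not the Monge-Ampere measure `MA(φ)` of any bounded `ω`-plurisubharmonic
function `φ`. This answers Kolodziej's bounded subsolution question on compact Kaehler manifolds in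
the negative.

All notions entering the statement are defined in this file, over Mathlib alone. Objects on `X` are
described through the covering `ℂ³ → X`, whose restrictions to small balls are the charts of `X`.
-/

set_option autoImplicit false

open MeasureTheory Metric Set Filter Topology
open scoped ContDiff ComplexOrder

namespace Pool.Agent.Results.MP_a67f52_an.NoBoundedSolution

/-- `ℂⁿ` with its Euclidean norm; `volume` on it is Lebesgue measure on `ℝ²ⁿ`. -/
abbrev Cn (n : ℕ) : Type := EuclideanSpace ℂ (Fin n)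

/-- The `j`-th unit vector of `ℂⁿ`. -/
noncomputable def bas {n : ℕ} (j : Fin n) : Cn n := EuclideanSpace.single j (1 : ℂ)

/-- The Wirtinger derivative `∂f/∂z_j = (∂f/∂x_j - i ∂f/∂y_j) / 2`. -/
noncomputable def wd {n : ℕ} (j : Fin n) (f : Cn n → ℂ) (z : Cn n) : ℂ :=
  (fderiv ℝ f z (bas j) - Complex.I * fderiv ℝ f z (Complex.I • bas j)) / 2

/-- The Wirtinger derivative `∂f/∂z̄_k = (∂f/∂x_k + i ∂f/∂y_k) / 2`. -/
noncomputable def wdb {n : ℕ} (k : Fin n) (f : Cn n → ℂ) (z : Cn n) : ℂ :=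
  (fderiv ℝ f z (bas k) + Complex.I * fderiv ℝ f z (Complex.I • bas k)) / 2

/-- The complex Hessian `(∂²u/∂z_j∂z̄_k)` of a real function. -/
noncomputable def hess {n : ℕ} (u : Cn n → ℝ) (z : Cn n) : Matrix (Fin n) (Fin n) ℂ :=
  Matrix.of fun j k => wd j (wdb k fun w => (u w : ℂ)) z

/-- Plurisubharmonic functions on an open set `Ω` of `ℂⁿ`, with values in `[-∞, ∞)`: upper
semicontinuous, and for every closed complex disc `{a + ζ b : |ζ| ≤ 1} ⊆ Ω` the value at the centre
`a` is at most the mean over the boundary circle. The mean of an upper semicontinuous function is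
the infimum of the means of its continuous majorants, which is how it is expressed here. -/
def PSH {n : ℕ} (Ω : Set (Cn n)) (u : Cn n → EReal) : Prop :=
  UpperSemicontinuousOn u Ω ∧ (∀ z ∈ Ω, u z < ⊤) ∧
  ∀ a b : Cn n, (∀ ζ : ℂ, ‖ζ‖ ≤ 1 → a + ζ • b ∈ Ω) →
    ∀ φ : ℂ → ℝ, Continuous φ →
      (∀ ζ : ℂ, ‖ζ‖ = 1 → u (a + ζ • b) ≤ ((φ ζ : ℝ) : EReal)) →
        u a ≤ ((Real.circleAverage φ 0 1 : ℝ) : EReal)

/-- The density of `(dd^c v)ⁿ` with respect to Lebesgue measure for a `C²` function `v`, where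
`dd^c = (i/π)∂∂̄`: it is `n! (2/π)ⁿ det(∂²v/∂z_j∂z̄_k)`. -/
noncomputable def maDensity {n : ℕ} (v : Cn n → ℝ) (z : Cn n) : ℝ :=
  (n.factorial : ℝ) * (2 / Real.pi) ^ n * (hess v z).det.re

/-- `μ` is, on `Ω`, the Monge-Ampere measure `(dd^c u)ⁿ` of the locally bounded plurisubharmonic
function `u` in the sense of Bedford and Taylor: it is finite on compact subsets of `Ω`, and on every
open `U` relatively compact in `Ω` the function `u` is the pointwise limit of a decreasing sequence of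
smooth plurisubharmonic functions `v_k` whose Monge-Ampere measures `maDensity (v_k) dVol` converge
weakly to `μ` on `U`. -/
def IsMongeAmpere {n : ℕ} (Ω : Set (Cn n)) (u : Cn n → ℝ) (μ : Measure (Cn n)) : Prop :=
  (∀ K : Set (Cn n), IsCompact K → K ⊆ Ω → μ K < ⊤) ∧
  ∀ U : Set (Cn n), IsOpen U → IsCompact (closure U) → closure U ⊆ Ω →
    ∃ v : ℕ → Cn n → ℝ,
      (∀ k, ContDiffOn ℝ ∞ (v k) U) ∧
      (∀ k, ∀ z ∈ U, (hess (v k) z).PosSemidef) ∧
      (∀ z ∈ U, Antitone fun k => v k z) ∧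
      (∀ z ∈ U, Tendsto (fun k => v k z) atTop (𝓝 (u z))) ∧
      ∀ χ : Cn n → ℝ, Continuous χ → HasCompactSupport χ → tsupport χ ⊆ U →
        Tendsto (fun k => ∫ z, χ z * maDensity (v k) z) atTop (𝓝 (∫ z, χ z ∂μ))

/-- The sides of the fundamental cell: `a` in the first variable and `1` in the other two. -/
noncomputable def side (a : ℝ) (i : Fin 3) : ℝ := if i = 0 then a else 1

/-- The point `(side_i (m_i + m_i' √-1))_i` of `ℂ³`. -/
noncomputable def lat (a : ℝ) (m : Fin 3 → ℤ × ℤ) : Cn 3 :=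
  WithLp.toLp 2 fun i => ((side a i : ℝ) : ℂ) * (((m i).1 : ℂ) + ((m i).2 : ℂ) * Complex.I)

/-- The lattice `Λ_a = aℤ[i] × ℤ[i] × ℤ[i]` of `ℂ³`. -/
noncomputable def Lam (a : ℝ) : AddSubgroup (Cn 3) where
  carrier := Set.range (lat a)
  zero_mem' := ⟨0, Pool.Agent.H805K.TLAT.lat_zero a⟩
  add_mem' := by
    rintro _ _ ⟨m, rfl⟩ ⟨m', rfl⟩
    exact ⟨m + m', Pool.Agent.H805K.lat_add a m m'⟩
  neg_mem' := by
    rintro _ ⟨m, rfl⟩
    exact ⟨-m, Pool.Agent.H805K.TLAT.lat_neg a m⟩

/-- The projection of `ℂ³` onto the complex torus `X = ℂ³ / Λ_a`. -/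
noncomputable def pr (a : ℝ) (z : Cn 3) : Cn 3 ⧸ Lam a := (z : Cn 3 ⧸ Lam a)

/-- The volume `V = ∫_X ω³` of `X = ℂ³ / Λ_a` for the Kaehler form `ω` which lifts to `dd^c ‖z‖²`:
the form `(dd^c ‖z‖²)³` is `3! (2/π)³` times Lebesgue measure, and `Λ_a` has covolume `a²`. -/
noncomputable def Vol (a : ℝ) : ℝ := ((Nat.factorial 3 : ℕ) : ℝ) * (2 / Real.pi) ^ 3 * a ^ 2

/-- The measure `μ` on `X = ℂ³ / Λ_a` is locally dominated by Monge-Ampere measures of bounded
plurisubharmonic functions: every point `x` is the image of the centre `p` of a ball on which the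
projection is injective (a chart of `X`) and on which there is a bounded plurisubharmonic function `u`
with `μ ≤ (dd^c u)³`. -/
def LocDom (a : ℝ) (μ : Measure (Cn 3 ⧸ Lam a)) : Prop :=
  ∀ x : Cn 3 ⧸ Lam a, ∃ (p : Cn 3) (r : ℝ) (u : Cn 3 → ℝ) (ν : Measure (Cn 3)),
    0 < r ∧ pr a p = x ∧ InjOn (pr a) (ball p r) ∧ (∃ B : ℝ, ∀ z ∈ ball p r, |u z| ≤ B) ∧
    PSH (ball p r) (fun z => ((u z : ℝ) : EReal)) ∧ IsMongeAmpere (ball p r) u ν ∧
    ∀ E, MeasurableSet E → E ⊆ ball p r → μ (pr a '' E) ≤ ν E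

/-- `φ` is a bounded `ω`-plurisubharmonic function on `X = ℂ³ / Λ_a` with `MA(φ) = μ`, that is
`(ω + dd^c φ)³ = V μ`: the function `‖z‖² + φ` is plurisubharmonic on `ℂ³`, and its Monge-Ampere
measure `ν` satisfies `ν E = V μ(π(E))` for every Borel set `E` on which the projection `π` is
injective. -/
def IsBddSol (a : ℝ) (φ : Cn 3 ⧸ Lam a → ℝ) (μ : Measure (Cn 3 ⧸ Lam a)) : Prop :=
  (∃ B : ℝ, ∀ x, |φ x| ≤ B) ∧
  PSH univ (fun z : Cn 3 => ((‖z‖ ^ 2 + φ (pr a z) : ℝ) : EReal)) ∧
  ∃ ν : Measure (Cn 3), IsMongeAmpere univ (fun z => ‖z‖ ^ 2 + φ (pr a z)) ν ∧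
    ∀ E, MeasurableSet E → InjOn (pr a) E → ν E = ENNReal.ofReal (Vol a) * μ (pr a '' E)

/-- Sanity check of the definitions: for every `a > 0` there is a probability measure on the torus
(normalised Lebesgue measure) for which the function `0` is a solution. -/
theorem definitions_check {a : ℝ} (ha : 0 < a) :
    ∃ μ : Measure (Cn 3 ⧸ Lam a), μ univ = 1 ∧ IsBddSol a (fun _ => 0) μ :=
  Pool.Agent.H805K.defs_check ha

/-- **Q1, answered in the negative.** For a suitable `a > 0` the complex torus `X = ℂ³ / Λ_a`, a compact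
Kaehler manifold with the Kaehler form `ω = dd^c ‖z‖²`, carries a probability measure `μ` which is
locally dominated by Monge-Ampere measures of bounded plurisubharmonic functions and which is not
`MA(φ)` for any bounded `ω`-plurisubharmonic function `φ`. -/
theorem result : ∃ (a : ℝ) (μ : Measure (Cn 3 ⧸ Lam a)), 0 < a ∧ CompactSpace (Cn 3 ⧸ Lam a) ∧
    T2Space (Cn 3 ⧸ Lam a) ∧ μ univ = 1 ∧ LocDom a μ ∧
    ¬ ∃ φ : Cn 3 ⧸ Lam a → ℝ, IsBddSol a φ μ :=
  Pool.Agent.H805K.torus_main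

end Pool.Agent.Results.MP_a67f52_an.NoBoundedSolution
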